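import Pool.Agent.Q297.No2Main

/-!
A process which is both a forward and a backward Brownian motion and has an independence time, but
which is not a two-sided Brownian motion.
-/

open MeasureTheory ProbabilityTheory Set Filter Topology
open scoped ENNReal NNReal

namespace Pool.Agent.Results.MP_1541f7_pr.NotTwoSided

variable {Ω : Type*} [MeasurableSpace Ω]

/-- forward Brownian motion: there are random times `S n → -∞` such that `X` seen from each `S n`
is a standard Brownian motion -/
def FBM (X : ℝ → Ω → ℝ) (P : Measure Ω) : Prop :=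
  ∃ S : ℕ → Ω → ℝ, (∀ n, Measurable (S n)) ∧ (∀ᵐ ω ∂P, Tendsto (fun n => S n ω) atTop atBot) ∧
    ∀ n, IsBrownianReal (fun (t : ℝ≥0) ω => X (S n ω + t) ω - X (S n ω) ω) P

/-- backward Brownian motion -/
def BBM (X : ℝ → Ω → ℝ) (P : Measure Ω) : Prop := FBM (fun t => X (-t)) P

/-- the processes seen from `T` forward and backward are independent -/
def IndepAt (X : ℝ → Ω → ℝ) (T : Ω → ℝ) (P : Measure Ω) : Prop :=
  IndepFun (fun ω (t : ℝ≥0) => X (T ω + t) ω - X (T ω) ω)
    (fun ω (t : ℝ≥0) => X (T ω - t) ω - X (T ω) ω) P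

/-- two-sided Brownian motion -/
def TwoBM (X : ℝ → Ω → ℝ) (P : Measure Ω) : Prop :=
  ∃ S : Ω → ℝ, Measurable S ∧ IsBrownianReal (fun (t : ℝ≥0) ω => X (S ω + t) ω - X (S ω) ω) P ∧
    IsBrownianReal (fun (t : ℝ≥0) ω => X (S ω - t) ω - X (S ω) ω) P ∧ IndepAt X S P

/-- **Main theorem.**  There is a continuous process `X` that is both an FBM and a BBM and admits a
random time `T` with independence of the two sides, and such that no continuous process with the
law of `X`, on any probability space whatsoever, is a 2BM. -/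
theorem result : ∃ (Ω : Type) (_ : MeasurableSpace Ω) (P : Measure Ω) (_ : IsProbabilityMeasure P)
    (X : ℝ → Ω → ℝ), (∀ t, Measurable (X t)) ∧ (∀ ω, Continuous fun t => X t ω) ∧
      FBM X P ∧ BBM X P ∧ (∃ T : Ω → ℝ, Measurable T ∧ IndepAt X T P) ∧
      ∀ (Ω' : Type) (_ : MeasurableSpace Ω') (P' : Measure Ω') (X' : ℝ → Ω' → ℝ),
        (∀ t, Measurable (X' t)) → (∀ ω, Continuous fun t => X' t ω) →
        P'.map (fun ω t => X' t ω) = P.map (fun ω t => X t ω) → ¬ TwoBM X' P' :=
  Q297.Win.main

end Pool.Agent.Results.MP_1541f7_pr.NotTwoSided
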